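import Mathlib

/-!
# FAM-P3: heights under a rational function
-/

namespace Pool.Agent.Helper42.FAM

open Polynomial

universe u

private lemma height_ge_aux {L : Type u} [Field L] [Height.AdmissibleAbsValues L] (P D : L[X])
    (h : IsCoprime P D) (hP : P ≠ 0) (hD : D.natDegree ≤ P.natDegree) :
    ∃ C > 0, ∀ x : L, C * Height.mulHeight₁ x ^ P.natDegree ≤
      Height.mulHeight ![P.eval x, D.eval x] := by
  obtain ⟨U, V, hUV⟩ := h
  set N := P.natDegree with hN
  set M := max N (max U.natDegree V.natDegree) with hM
  have hNM : N ≤ M := le_max_left _ _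
  have hUM : U.natDegree ≤ M := (le_max_left _ _).trans (le_max_right _ _)
  have hVM : V.natDegree ≤ M := (le_max_right _ _).trans (le_max_right _ _)
  obtain ⟨A, B, hAM, hBM, hAB⟩ : ∃ A B : L[X], A.natDegree ≤ M ∧ B.natDegree ≤ M ∧
      A * P + B * D = X ^ (M + N) := by
    set Q := (V * X ^ (M + N)) / P with hQ
    set B := (V * X ^ (M + N)) % P with hB
    have hdiv : P * Q + B = V * X ^ (M + N) := EuclideanDomain.div_add_mod _ _
    refine ⟨X ^ (M + N) * U + Q * D, B, ?_, ?_, ?_⟩
    · have hBN : B.natDegree ≤ N := natDegree_le_natDegree (degree_mod_lt _ hP).le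
      set A := X ^ (M + N) * U + Q * D with hA
      have e : A * P = X ^ (M + N) - B * D := by
        have : A * P = X ^ (M + N) * (U * P) + (P * Q) * D := by rw [hA]; ring
        rw [this, eq_sub_of_add_eq hdiv, eq_sub_of_add_eq hUV]
        ring
      by_cases hA0 : A = 0
      · rw [hA0]; simp
      have h1 : (A * P).natDegree = A.natDegree + N := natDegree_mul hA0 hP
      have h2 : (X ^ (M + N) - B * D).natDegree ≤ M + N := by
        refine (natDegree_sub_le _ _).trans (max_le (natDegree_X_pow_le _) ?_)
        exact natDegree_mul_le.trans (by omega)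
      rw [← e, h1] at h2
      omega
    · exact (natDegree_le_natDegree (degree_mod_lt _ hP).le).trans hNM
    · have : (X ^ (M + N) * U + Q * D) * P + B * D =
          X ^ (M + N) * (U * P) + (P * Q + B) * D := by ring
      rw [this, hdiv, eq_sub_of_add_eq hUV]
      ring
  set W : Fin 2 × Fin 2 → L[X] := fun a => ![![A, B], ![U, V]] a.1 a.2 with hW
  have hWdeg : ∀ a, (W a).natDegree ≤ M := by
    rintro ⟨i, j⟩
    fin_cases i <;> fin_cases j
    · exact hAM
    · exact hBM
    · exact hUM
    · exact hVM
  obtain ⟨C, hC, hCx⟩ := Height.mulHeight_eval_ge' (K := L) (M := M) (N := N)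
    (q := fun a : Fin 2 × Fin 2 => (W a).homogenize M)
    (fun a => isHomogeneous_homogenize _)
  refine ⟨C, hC, fun x => ?_⟩
  have ev : ∀ (p : L[X]) (n : ℕ), p.natDegree ≤ n →
      MvPolynomial.eval ![x, 1] (p.homogenize n) = p.eval x := by
    intro p n hn
    rw [eval_homogenize hn _ (by simp)]
    simp
  have key := hCx (fun j : Fin 2 => (![P, D] j).homogenize N) (x := ![x, 1]) (by
    intro k
    rw [Fin.sum_univ_two]
    simp only [ev _ M (hWdeg _)]
    have e0 : MvPolynomial.eval ![x, 1] ((![P, D] 0).homogenize N) = P.eval x := ev P N hN.ge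
    have e1 : MvPolynomial.eval ![x, 1] ((![P, D] 1).homogenize N) = D.eval x := ev D N hD
    rw [e0, e1]
    fin_cases k
    · have := congrArg (Polynomial.eval x) hAB
      simpa [hW] using this
    · have := congrArg (Polynomial.eval x) hUV
      simpa [hW] using this)
  rw [Height.mulHeight₁_eq_mulHeight]
  refine key.trans (le_of_eq ?_)
  congr 1
  funext j
  fin_cases j
  · exact ev P N hN.ge
  · exact ev D N hD

/-- P3: heights under a rational function. -/
theorem height_ge {L : Type u} [Field L] [Height.AdmissibleAbsValues L] (P D : L[X])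
    (h : IsCoprime P D) :
    ∃ C > 0, ∀ x : L, C * Height.mulHeight₁ x ^ (max P.natDegree D.natDegree) ≤
      Height.mulHeight ![P.eval x, D.eval x] := by
  by_cases hc : P ≠ 0 ∧ D.natDegree ≤ P.natDegree
  · rw [max_eq_left hc.2]
    exact height_ge_aux P D h hc.1 hc.2
  · have hD0 : D ≠ 0 ∧ P.natDegree ≤ D.natDegree := by
      by_cases hP : P = 0
      · subst hP
        refine ⟨?_, by simp⟩
        rintro rfl
        exact not_isCoprime_zero_zero h
      · have hlt : P.natDegree < D.natDegree := by
          by_contra hle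
          exact hc ⟨hP, not_lt.mp hle⟩
        refine ⟨?_, hlt.le⟩
        rintro rfl
        simp at hlt
    rw [max_eq_right hD0.2]
    obtain ⟨C, hC, hx⟩ := height_ge_aux D P h.symm hD0.1 hD0.2
    refine ⟨C, hC, fun x => ?_⟩
    rw [Height.mulHeight_swap]
    exact hx x

end Pool.Agent.Helper42.FAM
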