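import Pool.Agent.Helper42.FAM.P5a
import Pool.Agent.Helper32.FAM.P4

/-!
# FAM-P5: unbounded orbits
-/

namespace Pool.Agent.Helper42.FAM

open Polynomial

universe u

/-- P5: unbounded orbits. -/
theorem orbit {L : Type u} [Field L] [CharZero L] [Height.AdmissibleAbsValues L]
    (L₁ : Subfield L) (q : L₁[X]) (hs : q.Separable) (h3 : 3 ≤ q.natDegree)
    (h4 : q.natDegree ≤ 4) :
    ∃ B : ℝ, ∀ c : L₁, B ≤ Height.mulHeight₁ (c : L) → ∀ M : ℝ, ∃ x ρ : L₁,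
      M ≤ Height.mulHeight₁ (x : L) ∧ q.eval x = ρ ^ 2 * q.eval c :=
  orbit_of L₁ q h4 (Pool.Agent.Helper32.FAM.tripling q hs h3 h4)

end Pool.Agent.Helper42.FAM
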