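import Pool.Agent.Helper42.FAM.P3

/-!
# FAM-P5: unbounded orbits (from the tripling map P4)
-/

namespace Pool.Agent.Helper42.FAM

open Polynomial

universe u

/-- P5 from P4: unbounded orbits. -/
theorem orbit_of {L : Type u} [Field L] [Height.AdmissibleAbsValues L]
    (L₁ : Subfield L) (q : L₁[X]) (h4 : q.natDegree ≤ 4)
    (hT : ∃ P D R : L₁[X], IsCoprime P D ∧ 2 ≤ max P.natDegree D.natDegree ∧
      ∑ i ∈ Finset.range 5, C (q.coeff i) * P ^ i * D ^ (4 - i) = q * R ^ 2) :
    ∃ B : ℝ, ∀ c : L₁, B ≤ Height.mulHeight₁ (c : L) → ∀ M : ℝ, ∃ x ρ : L₁,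
      M ≤ Height.mulHeight₁ (x : L) ∧ q.eval x = ρ ^ 2 * q.eval c := by
  obtain ⟨P, D, R, hPD, hdeg, hid⟩ := hT
  set ι : L₁ →+* L := L₁.subtype with hι
  have hinj : Function.Injective ι := Subtype.coe_injective
  obtain ⟨A, hA, hAx⟩ := height_ge (P.map ι) (D.map ι) (hPD.map (Polynomial.mapRingHom ι))
  rw [natDegree_map_eq_of_injective hinj, natDegree_map_eq_of_injective hinj] at hAx
  set δ := max P.natDegree D.natDegree with hδ
  refine ⟨max (2 / A) 1, fun c hc M => ?_⟩
  have step : ∀ x : L₁, max (2 / A) 1 ≤ Height.mulHeight₁ (x : L) →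
      2 * Height.mulHeight₁ (x : L) ≤ Height.mulHeight₁ ((P.eval x / D.eval x : L₁) : L) ∧
        D.eval x ≠ 0 := by
    intro x hx
    have h1 : 1 ≤ Height.mulHeight₁ (x : L) := Height.one_le_mulHeight₁ _
    have h2 : 2 / A ≤ Height.mulHeight₁ (x : L) := (le_max_left _ _).trans hx
    have e : Height.mulHeight₁ ((P.eval x / D.eval x : L₁) : L) =
        Height.mulHeight ![(P.map ι).eval (x : L), (D.map ι).eval (x : L)] := by
      rw [← Height.mulHeight₁_div_eq_mulHeight]
      have eP : (P.map ι).eval (x : L) = ((P.eval x : L₁) : L) := eval_map_apply ι x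
      have eD : (D.map ι).eval (x : L) = ((D.eval x : L₁) : L) := eval_map_apply ι x
      rw [eP, eD]
      rfl
    have h3 : 2 * Height.mulHeight₁ (x : L) ≤ A * Height.mulHeight₁ (x : L) ^ δ := by
      have h4 : Height.mulHeight₁ (x : L) ^ 2 ≤ Height.mulHeight₁ (x : L) ^ δ :=
        pow_le_pow_right₀ h1 hdeg
      rw [div_le_iff₀ hA] at h2
      calc 2 * Height.mulHeight₁ (x : L)
          ≤ (Height.mulHeight₁ (x : L) * A) * Height.mulHeight₁ (x : L) := by gcongr
        _ = A * Height.mulHeight₁ (x : L) ^ 2 := by ring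
        _ ≤ _ := by gcongr
    have h5 : 2 * Height.mulHeight₁ (x : L) ≤
        Height.mulHeight₁ ((P.eval x / D.eval x : L₁) : L) := by
      rw [e]
      exact h3.trans (hAx x)
    refine ⟨h5, fun h0 => ?_⟩
    rw [h0, div_zero] at h5
    have h6 : Height.mulHeight₁ ((0 : L₁) : L) = 1 := by
      simp
    rw [h6] at h5
    linarith
  have iter : ∀ m : ℕ, ∃ x ρ : L₁, (2 : ℝ) ^ m ≤ Height.mulHeight₁ (x : L) ∧
      max (2 / A) 1 ≤ Height.mulHeight₁ (x : L) ∧ q.eval x = ρ ^ 2 * q.eval c := by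
    intro m
    induction m with
    | zero =>
      refine ⟨c, 1, ?_, hc, by simp⟩
      simpa using Height.one_le_mulHeight₁ (c : L)
    | succ m ih =>
      obtain ⟨x, ρ, h1, h2, h3⟩ := ih
      obtain ⟨h5, h6⟩ := step x h2
      refine ⟨P.eval x / D.eval x, ρ * R.eval x / D.eval x ^ 2, ?_, ?_, ?_⟩
      · rw [pow_succ]
        linarith
      · have := Height.mulHeight₁_nonneg (x : L)
        linarith
      · have hx := congrArg (Polynomial.eval x) hid
        simp only [Finset.sum_range_succ, Finset.sum_range_zero, eval_add, eval_mul, eval_pow,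
          eval_C, zero_add, h3] at hx
        have hq : q.eval (P.eval x / D.eval x) =
            ∑ i ∈ Finset.range 5, q.coeff i * (P.eval x / D.eval x) ^ i :=
          eval_eq_sum_range' (by omega) _
        rw [hq]
        simp only [Finset.sum_range_succ, Finset.sum_range_zero, zero_add]
        field_simp
        norm_num at hx ⊢
        linear_combination hx
  obtain ⟨m, hm⟩ := pow_unbounded_of_one_lt M (one_lt_two : (1 : ℝ) < 2)
  obtain ⟨x, ρ, h1, -, h3⟩ := iter m
  exact ⟨x, ρ, hm.le.trans h1, h3⟩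

end Pool.Agent.Helper42.FAM
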